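import Pool.Agent.K9h80.EP.En1

/-!
# A box inequality for multilinear exponential sums over families of integers

The functions `g i` are arbitrary functions of absolute value at most one which do not depend on the coordinate `i`.
-/

set_option autoImplicit false

namespace Pool.Agent.K9h80.EP

open Finset

variable {Q : ℕ} [NeZero Q]

lemma pow_sum_le' {α : Type} (s : Finset α) (f : α → ℝ) (hf : ∀ i ∈ s, 0 ≤ f i) (m : ℕ) (hm : 1 ≤ m) :
    (∑ i ∈ s, f i) ^ m ≤ (s.card : ℝ) ^ (m - 1) * ∑ i ∈ s, f i ^ m := by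
  obtain ⟨n, hn⟩ : ∃ n, m = n + 1 := ⟨m - 1, by omega⟩
  rw [hn]
  exact pow_sum_le_card_mul_sum_pow hf n

/-- Sums over tuples. -/
lemma sum_cons {r : ℕ} (α : Fin (r + 1) → Type) [∀ i, Fintype (α i)] {R : Type} [AddCommMonoid R] (f : (∀ i, α i) → R) :
    ∑ x, f x = ∑ a : α 0, ∑ y : ∀ i : Fin r, α i.succ, f (Fin.cons a y) := by
  rw [← (Fin.consEquiv α).sum_comp, Fintype.sum_prod_type]
  rfl

/-- Powers of absolute values. -/
lemma norm_expand {α : Type} [Fintype α] (p : ℕ) (h : α → ℂ) :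
    ((‖∑ x, h x‖ ^ (2 * p) : ℝ) : ℂ) =
      ∑ q : (Fin p → α) × (Fin p → α), (∏ j, h (q.1 j)) * ∏ j, (starRingEnd ℂ) (h (q.2 j)) := by
  have h1 : ((‖∑ x, h x‖ ^ (2 * p) : ℝ) : ℂ) = (∑ x, h x) ^ p * (starRingEnd ℂ) (∑ x, h x) ^ p := by
    rw [← mul_pow, Complex.mul_conj', ← pow_mul]
    push_cast
    rfl
  rw [h1, map_sum, Fintype.sum_pow, Fintype.sum_pow, sum_mul_sum, ← univ_product_univ, sum_product]

/-- The box sum. -/
noncomputable def BC (p : ℕ) {r : ℕ} {ι : Fin r → Type} [∀ i, Fintype (ι i)] (v : ∀ i, ι i → ℤ) (u : ZMod Q) : ℂ :=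
  ∑ q : ∀ i, (Fin p → ι i) × (Fin p → ι i), ps (u * ((∏ i, df (v i) (q i) : ℤ) : ZMod Q))

lemma BC_succ (p : ℕ) {r : ℕ} {ι : Fin (r + 1) → Type} [∀ i, Fintype (ι i)] (v : ∀ i, ι i → ℤ) (u : ZMod Q) :
    BC p v u = ∑ q : (Fin p → ι 0) × (Fin p → ι 0), BC p (fun i : Fin r => v i.succ) (u * (df (v 0) q : ZMod Q)) := by
  unfold BC
  rw [sum_cons]
  apply sum_congr rfl
  intro q _
  apply sum_congr rfl
  intro y _
  congr 1
  rw [Fin.prod_univ_succ]
  simp only [Fin.cons_zero, Fin.cons_succ]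
  push_cast
  ring

lemma BC_one (p : ℕ) {ι : Fin (0 + 1) → Type} [∀ i, Fintype (ι i)] (v : ∀ i, ι i → ℤ) (u : ZMod Q) :
    BC p v u = ((‖S (v 0) u‖ ^ (2 * p) : ℝ) : ℂ) := by
  rw [BC_succ, S_pow]
  apply sum_congr rfl
  intro q _
  unfold BC
  rw [Fintype.sum_unique]
  simp

lemma BC_real (p : ℕ) (r : ℕ) : ∀ (ι : Fin (r + 1) → Type) [∀ i, Fintype (ι i)] (v : ∀ i, ι i → ℤ) (u : ZMod Q),
    BC p v u = ((‖BC p v u‖ : ℝ) : ℂ) := by
  induction r with
  | zero =>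
    intro ι _ v u
    rw [BC_one, Complex.norm_real, Real.norm_of_nonneg (by positivity)]
  | succ r ih =>
    intro ι _ v u
    rw [BC_succ]
    have h1 : ∑ q : (Fin p → ι 0) × (Fin p → ι 0), BC p (fun i : Fin (r + 1) => v i.succ) (u * (df (v 0) q : ZMod Q)) =
        ((∑ q : (Fin p → ι 0) × (Fin p → ι 0), ‖BC p (fun i : Fin (r + 1) => v i.succ) (u * (df (v 0) q : ZMod Q))‖ : ℝ) : ℂ) := by
      rw [Complex.ofReal_sum]
      exact sum_congr rfl fun q _ => ih _ _ _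
    rw [h1, Complex.norm_real, Real.norm_of_nonneg (by positivity)]

lemma BC_succ_norm (p : ℕ) {r : ℕ} {ι : Fin (r + 1 + 1) → Type} [∀ i, Fintype (ι i)] (v : ∀ i, ι i → ℤ) (u : ZMod Q) :
    ‖BC p v u‖ = ∑ q : (Fin p → ι 0) × (Fin p → ι 0), ‖BC p (fun i : Fin (r + 1) => v i.succ) (u * (df (v 0) q : ZMod Q))‖ := by
  have h1 : BC p v u = ((∑ q : (Fin p → ι 0) × (Fin p → ι 0), ‖BC p (fun i : Fin (r + 1) => v i.succ) (u * (df (v 0) q : ZMod Q))‖ : ℝ) : ℂ) := by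
    rw [BC_succ, Complex.ofReal_sum]
    exact sum_congr rfl fun q _ => BC_real p r _ _ _
  rw [h1, Complex.norm_real, Real.norm_of_nonneg (by positivity)]

/-- The multilinear sum. -/
noncomputable def ML {r : ℕ} {ι : Fin r → Type} [∀ i, Fintype (ι i)] (v : ∀ i, ι i → ℤ) (g : Fin r → (∀ i, ι i) → ℂ) (u : ZMod Q) : ℂ :=
  ∑ x : ∀ i, ι i, ps (u * ((∏ i, v i (x i) : ℤ) : ZMod Q)) * ∏ i, g i x

lemma prod_conj_norm_le {p : ℕ} (a b : Fin p → ℂ) (ha : ∀ j, ‖a j‖ ≤ 1) (hb : ∀ j, ‖b j‖ ≤ 1) :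
    ‖(∏ j, a j) * ∏ j, (starRingEnd ℂ) (b j)‖ ≤ 1 := by
  rw [norm_mul, norm_prod, norm_prod]
  have h1 : ∏ j, ‖a j‖ ≤ 1 := prod_le_one (fun _ _ => norm_nonneg _) fun j _ => ha j
  have h2 : ∏ j, ‖(starRingEnd ℂ) (b j)‖ ≤ 1 := prod_le_one (fun _ _ => norm_nonneg _) fun j _ => by
    rw [RCLike.norm_conj]
    exact hb j
  have h3 : 0 ≤ ∏ j, ‖(starRingEnd ℂ) (b j)‖ := prod_nonneg fun _ _ => norm_nonneg _
  calc (∏ j, ‖a j‖) * ∏ j, ‖(starRingEnd ℂ) (b j)‖ ≤ 1 * 1 := mul_le_mul h1 h2 h3 zero_le_one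
    _ = 1 := one_mul 1

/-- **The box inequality.** -/
theorem box (p : ℕ) (hp : 1 ≤ p) (r : ℕ) : ∀ (ι : Fin (r + 1) → Type) [∀ i, Fintype (ι i)] [∀ i, Nonempty (ι i)]
    (v : ∀ i, ι i → ℤ) (u : ZMod Q) (g : Fin (r + 1) → (∀ i, ι i) → ℂ), (∀ i x, ‖g i x‖ ≤ 1) →
    (∀ i x a, g i (Function.update x i a) = g i x) →
    ‖ML v g u‖ ^ ((2 * p) ^ (r + 1)) ≤ (∏ i, (Fintype.card (ι i) : ℝ)) ^ ((2 * p) ^ (r + 1) - 2 * p) * ‖BC p v u‖ := by
  induction r with
  | zero =>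
    intro ι _ _ v u g hg1 hg2
    obtain ⟨a0⟩ : Nonempty (ι 0) := inferInstance
    have hconst : ∀ a : ι 0, ∀ y : ∀ i : Fin 0, ι i.succ, g 0 (Fin.cons a y) = g 0 (Fin.cons a0 y) := by
      intro a y
      rw [← hg2 0 (Fin.cons a0 y) a, Fin.update_cons_zero]
    have h1 : ML v g u = S (v 0) u * g 0 (Fin.cons a0 (fun i => i.elim0)) := by
      unfold ML S
      rw [sum_cons, sum_mul]
      apply sum_congr rfl
      intro a _
      rw [Fintype.sum_unique, Fin.prod_univ_succ, Fin.prod_univ_zero, Fin.prod_univ_succ, Fin.prod_univ_zero, mul_one, mul_one,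
        hconst a]
      congr 2
    rw [BC_one, Complex.norm_real, Real.norm_of_nonneg (by positivity), h1]
    have h2 : (2 * p) ^ (0 + 1) - 2 * p = 0 := by rw [zero_add, pow_one, Nat.sub_self]
    have h2' : (2 * p) ^ (0 + 1) = 2 * p := by rw [zero_add, pow_one]
    rw [h2, pow_zero, one_mul, h2', norm_mul, mul_pow]
    have h3 := pow_le_one₀ (n := 2 * p) (norm_nonneg _) (hg1 0 (Fin.cons a0 (fun i => i.elim0)))
    exact mul_le_of_le_one_right (by positivity) h3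
  | succ r ih =>
    intro ι _ _ v u g hg1 hg2
    obtain ⟨a0⟩ : Nonempty (ι 0) := inferInstance
    obtain ⟨M, hM⟩ : ∃ M, M = (2 * p) ^ (r + 1) := ⟨_, rfl⟩
    have hM1 : 1 ≤ M := by rw [hM]; exact Nat.one_le_pow _ _ (by omega)
    have hM2 : 2 * p ≤ M := by rw [hM]; exact Nat.le_self_pow (by omega) _
    obtain ⟨Y, hY⟩ : ∃ Y : ℝ, Y = ∏ i : Fin (r + 1), (Fintype.card (ι i.succ) : ℝ) := ⟨_, rfl⟩
    have hY0 : 0 ≤ Y := by rw [hY]; positivity
    have hYc : ((univ : Finset (∀ i : Fin (r + 1), ι i.succ)).card : ℝ) = Y := by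
      rw [card_univ, Fintype.card_pi, hY]
      push_cast
      rfl
    obtain ⟨n, hn⟩ : ∃ n : ℝ, n = Fintype.card (ι 0) := ⟨_, rfl⟩
    have hn0 : 0 ≤ n := by rw [hn]; positivity
    -- the inner function
    obtain ⟨h, hh⟩ : ∃ h : (∀ i : Fin (r + 1), ι i.succ) → ι 0 → ℂ, ∀ y a, h y a =
        ps (u * ((v 0 a * ∏ i : Fin (r + 1), v i.succ (y i) : ℤ) : ZMod Q)) * ∏ i : Fin (r + 1), g i.succ (Fin.cons a y) := ⟨_, fun _ _ => rfl⟩
    have hconst : ∀ a : ι 0, ∀ y : ∀ i : Fin (r + 1), ι i.succ, g 0 (Fin.cons a y) = g 0 (Fin.cons a0 y) := by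
      intro a y
      rw [← hg2 0 (Fin.cons a0 y) a, Fin.update_cons_zero]
    have h1 : ML v g u = ∑ y : ∀ i : Fin (r + 1), ι i.succ, g 0 (Fin.cons a0 y) * ∑ a, h y a := by
      unfold ML
      rw [sum_cons, sum_comm]
      apply sum_congr rfl
      intro y _
      rw [mul_sum]
      apply sum_congr rfl
      intro a _
      have e1 : ∏ i, v i ((Fin.cons a y : ∀ i, ι i) i) = v 0 a * ∏ i : Fin (r + 1), v i.succ (y i) := by
        rw [Fin.prod_univ_succ]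
        rfl
      have e2 : ∏ i, g i (Fin.cons a y) = g 0 (Fin.cons a y) * ∏ i : Fin (r + 1), g i.succ (Fin.cons a y) :=
        Fin.prod_univ_succ _
      rw [hh, e1, e2, hconst a]
      ring
    have h2 : ‖ML v g u‖ ≤ ∑ y : ∀ i : Fin (r + 1), ι i.succ, ‖∑ a, h y a‖ := by
      rw [h1]
      refine (norm_sum_le _ _).trans (sum_le_sum fun y _ => ?_)
      rw [norm_mul]
      exact mul_le_of_le_one_left (norm_nonneg _) (hg1 _ _)
    -- the functions of the next level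
    obtain ⟨G, hG⟩ : ∃ G : (Fin p → ι 0) × (Fin p → ι 0) → Fin (r + 1) → (∀ i : Fin (r + 1), ι i.succ) → ℂ, ∀ q i y, G q i y =
        (∏ j, g i.succ (Fin.cons (q.1 j) y)) * ∏ j, (starRingEnd ℂ) (g i.succ (Fin.cons (q.2 j) y)) := ⟨_, fun _ _ _ => rfl⟩
    have h3 : ((∑ y : ∀ i : Fin (r + 1), ι i.succ, ‖∑ a, h y a‖ ^ (2 * p) : ℝ) : ℂ) =
        ∑ q : (Fin p → ι 0) × (Fin p → ι 0), ML (fun i : Fin (r + 1) => v i.succ) (G q) (u * (df (v 0) q : ZMod Q)) := by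
      rw [Complex.ofReal_sum]
      simp only [norm_expand]
      rw [sum_comm]
      apply sum_congr rfl
      intro q _
      unfold ML
      apply sum_congr rfl
      intro y _
      simp only [hh, hG, map_mul, map_prod, prod_mul_distrib, ← ps_neg]
      rw [← ps_sum, ← ps_sum]
      have e1 : ps (∑ j, u * ((v 0 (q.1 j) * ∏ i : Fin (r + 1), v i.succ (y i) : ℤ) : ZMod Q)) *
          ps (∑ j, -(u * ((v 0 (q.2 j) * ∏ i : Fin (r + 1), v i.succ (y i) : ℤ) : ZMod Q))) =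
          ps (u * (df (v 0) q : ZMod Q) * ((∏ i : Fin (r + 1), v i.succ (y i) : ℤ) : ZMod Q)) := by
        rw [← ps_add]
        congr 1
        unfold df
        push_cast
        rw [sum_neg_distrib, ← mul_sum, ← mul_sum, ← sum_mul, ← sum_mul]
        ring
      rw [← e1, prod_comm (s := (univ : Finset (Fin p))) (f := fun x i => g (Fin.succ i) (Fin.cons (q.1 x) y)),
        prod_comm (s := (univ : Finset (Fin p))) (f := fun x i => (starRingEnd ℂ) (g (Fin.succ i) (Fin.cons (q.2 x) y)))]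
      ring
    have h4 : ‖ML v g u‖ ^ (2 * p) ≤ Y ^ (2 * p - 1) * ∑ q : (Fin p → ι 0) × (Fin p → ι 0),
        ‖ML (fun i : Fin (r + 1) => v i.succ) (G q) (u * (df (v 0) q : ZMod Q))‖ := by
      refine (pow_le_pow_left₀ (norm_nonneg _) h2 _).trans ((pow_sum_le' univ _ (fun _ _ => norm_nonneg _) (2 * p) (by omega)).trans ?_)
      rw [hYc]
      apply mul_le_mul_of_nonneg_left _ (by positivity)
      have e : (∑ y : ∀ i : Fin (r + 1), ι i.succ, ‖∑ a, h y a‖ ^ (2 * p) : ℝ) =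
          ‖((∑ y : ∀ i : Fin (r + 1), ι i.succ, ‖∑ a, h y a‖ ^ (2 * p) : ℝ) : ℂ)‖ := by
        rw [Complex.norm_real, Real.norm_of_nonneg (by positivity)]
      rw [e, h3]
      exact norm_sum_le _ _
    have h5 : ∀ q : (Fin p → ι 0) × (Fin p → ι 0), ‖ML (fun i : Fin (r + 1) => v i.succ) (G q) (u * (df (v 0) q : ZMod Q))‖ ^ M ≤
        Y ^ (M - 2 * p) * ‖BC p (fun i : Fin (r + 1) => v i.succ) (u * (df (v 0) q : ZMod Q))‖ := by
      intro q
      rw [hM, hY]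
      apply ih (fun i : Fin (r + 1) => ι i.succ) (fun i => v i.succ) (u * (df (v 0) q : ZMod Q)) (G q)
      · intro i y
        rw [hG]
        exact prod_conj_norm_le _ _ (fun j => hg1 _ _) (fun j => hg1 _ _)
      · intro i y a
        rw [hG, hG]
        simp only [Fin.cons_update, hg2]
    have hWc : ((univ : Finset ((Fin p → ι 0) × (Fin p → ι 0))).card : ℝ) = n ^ (2 * p) := by
      rw [card_univ, Fintype.card_prod, Fintype.card_fun, Fintype.card_fin, hn]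
      push_cast
      ring
    have h6 : ‖ML v g u‖ ^ ((2 * p) ^ (r + 1 + 1)) = (‖ML v g u‖ ^ (2 * p)) ^ M := by
      rw [← pow_mul, hM]
      congr 1
      ring
    rw [h6, Fin.prod_univ_succ, ← hn, ← hY, BC_succ_norm]
    calc (‖ML v g u‖ ^ (2 * p)) ^ M ≤ (Y ^ (2 * p - 1) * ∑ q : (Fin p → ι 0) × (Fin p → ι 0),
        ‖ML (fun i : Fin (r + 1) => v i.succ) (G q) (u * (df (v 0) q : ZMod Q))‖) ^ M := pow_le_pow_left₀ (by positivity) h4 M
      _ = Y ^ ((2 * p - 1) * M) * (∑ q : (Fin p → ι 0) × (Fin p → ι 0),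
        ‖ML (fun i : Fin (r + 1) => v i.succ) (G q) (u * (df (v 0) q : ZMod Q))‖) ^ M := by rw [mul_pow, ← pow_mul]
      _ ≤ Y ^ ((2 * p - 1) * M) * ((n ^ (2 * p)) ^ (M - 1) * ∑ q : (Fin p → ι 0) × (Fin p → ι 0),
        ‖ML (fun i : Fin (r + 1) => v i.succ) (G q) (u * (df (v 0) q : ZMod Q))‖ ^ M) := by
          apply mul_le_mul_of_nonneg_left _ (by positivity)
          have := pow_sum_le' (univ : Finset ((Fin p → ι 0) × (Fin p → ι 0)))
            (fun q => ‖ML (fun i : Fin (r + 1) => v i.succ) (G q) (u * (df (v 0) q : ZMod Q))‖) (fun _ _ => norm_nonneg _) M hM1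
          rwa [hWc] at this
      _ ≤ Y ^ ((2 * p - 1) * M) * ((n ^ (2 * p)) ^ (M - 1) * ∑ q : (Fin p → ι 0) × (Fin p → ι 0),
        Y ^ (M - 2 * p) * ‖BC p (fun i : Fin (r + 1) => v i.succ) (u * (df (v 0) q : ZMod Q))‖) := by
          apply mul_le_mul_of_nonneg_left _ (by positivity)
          apply mul_le_mul_of_nonneg_left _ (by positivity)
          exact sum_le_sum fun q _ => h5 q
      _ = _ := by
          rw [← mul_sum]
          have e1 : (2 * p) ^ (r + 1 + 1) - 2 * p = (2 * p - 1) * M + (M - 2 * p) := by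
            have : (2 * p) ^ (r + 1 + 1) = 2 * p * M := by rw [hM]; ring
            rw [this]
            obtain ⟨k, hk⟩ : ∃ k, 2 * p = k + 1 := ⟨2 * p - 1, by omega⟩
            have e3 : 2 * p * M = k * M + M := by rw [hk]; ring
            have e4 : (2 * p - 1) * M = k * M := by rw [hk]; simp
            omega
          have e2 : 2 * p * (M - 1) = (2 * p) ^ (r + 1 + 1) - 2 * p := by
            have : (2 * p) ^ (r + 1 + 1) = 2 * p * M := by rw [hM]; ring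
            rw [this, Nat.mul_sub, mul_one]
          rw [mul_pow, ← pow_mul n, e2]
          nth_rewrite 3 [e1]
          rw [pow_add Y]
          ring

end Pool.Agent.K9h80.EP
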