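import Pool.Agent.K9h80.EP.Bx1
import Pool.Agent.TH212.EH.A4

/-!
# Box sums over families of integers of nearly minimal energy: mean values
-/

set_option autoImplicit false

namespace Pool.Agent.K9h80.EP

open Finset

lemma count_coord {R : ℕ} (α : Fin R → Type) [∀ i, Fintype (α i)] (i : Fin R) (A : Finset (α i)) [DecidablePred fun q : ∀ j, α j => q i ∈ A] :
    ((univ : Finset (∀ j, α j)).filter fun q => q i ∈ A).card * Fintype.card (α i) = A.card * ∏ j, Fintype.card (α j) := by
  classical
  have h1 : ((univ : Finset (∀ j, α j)).filter fun q => q i ∈ A) =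
      Fintype.piFinset (Function.update (fun j => (univ : Finset (α j))) i A) := by
    ext q
    simp only [mem_filter, mem_univ, true_and, Fintype.mem_piFinset]
    constructor
    · intro h j
      by_cases hj : j = i
      · subst hj
        rw [Function.update_self]
        exact h
      · rw [Function.update_of_ne hj]
        exact mem_univ _
    · intro h
      have := h i
      rwa [Function.update_self] at this
  have h2 : ∏ j ∈ univ.erase i, (Function.update (fun j => (univ : Finset (α j))) i A j).card =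
      ∏ j ∈ univ.erase i, Fintype.card (α j) := by
    apply prod_congr rfl
    intro j hj
    rw [Function.update_of_ne (ne_of_mem_erase hj), card_univ]
  rw [h1, Fintype.card_piFinset, ← mul_prod_erase univ (fun j => (Function.update (fun j => (univ : Finset (α j))) i A j).card) (mem_univ i),
    Function.update_self, h2, ← mul_prod_erase univ (fun j => Fintype.card (α j)) (mem_univ i)]
  ring

/-- the signed divisors -/
noncomputable def sd (n : ℤ) : Finset ℤ :=
  (n.natAbs.divisors.image (fun m : ℕ => (m : ℤ))) ∪ (n.natAbs.divisors.image (fun m : ℕ => -(m : ℤ)))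

lemma sd_card (n : ℤ) : (sd n).card ≤ 2 * n.natAbs.divisors.card := by
  unfold sd
  refine (card_union_le _ _).trans ((Nat.add_le_add card_image_le card_image_le).trans (by omega))

lemma mem_sd {l n : ℤ} (hn : n ≠ 0) (h : l ∣ n) : l ∈ sd n := by
  have h3 : l.natAbs ∈ n.natAbs.divisors := Nat.mem_divisors.2 ⟨Int.natAbs_dvd_natAbs.2 h, by
    intro h; exact hn (Int.natAbs_eq_zero.1 h)⟩
  unfold sd
  rw [mem_union, mem_image, mem_image]
  rcases le_total 0 l with h4 | h4
  · left
    exact ⟨_, h3, by omega⟩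
  · right
    exact ⟨_, h3, by omega⟩

variable {R : ℕ} {ι : Fin R → Type} [∀ i, Fintype (ι i)] (p : ℕ) (v : ∀ i, ι i → ℤ)

/-- the value of a tuple of differences -/
def eq' (q : ∀ i, (Fin p → ι i) × (Fin p → ι i)) : ℤ := ∏ i, df (v i) (q i)

open Classical in
/-- The tuples of a given value. -/
lemma value_count (n : ℤ) (hn : n ≠ 0) :
    ((univ : Finset (∀ i, (Fin p → ι i) × (Fin p → ι i))).filter fun q => eq' p v q = n).card ≤
      (∏ i, E p (v i)) * (2 * n.natAbs.divisors.card) ^ R := by
  have h1 := card_le_mul_card_image_of_maps_to (s := (univ : Finset (∀ i, (Fin p → ι i) × (Fin p → ι i))).filter fun q => eq' p v q = n)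
    (f := fun q => fun i => df (v i) (q i)) (t := Fintype.piFinset fun _ : Fin R => sd n) (by
      intro q hq
      rw [mem_filter] at hq
      rw [Fintype.mem_piFinset]
      intro i
      apply mem_sd hn
      rw [← hq.2]
      exact dvd_prod_of_mem _ (mem_univ i)) (∏ i, E p (v i)) (by
      intro h _
      have h2 : (((univ : Finset (∀ i, (Fin p → ι i) × (Fin p → ι i))).filter fun q => eq' p v q = n).filter
          fun q => (fun i => df (v i) (q i)) = h) ⊆
          Fintype.piFinset fun i => (univ : Finset ((Fin p → ι i) × (Fin p → ι i))).filter fun q => df (v i) q = h i := by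
        intro q hq
        rw [mem_filter] at hq
        rw [Fintype.mem_piFinset]
        intro i
        rw [mem_filter]
        exact ⟨mem_univ _, congrFun hq.2 i⟩
      refine (card_le_card h2).trans ?_
      rw [Fintype.card_piFinset]
      apply prod_le_prod' 
      intro i _
      convert rep_le p (v i) (h i) using 2)
  refine h1.trans (Nat.mul_le_mul_left _ ?_)
  rw [Fintype.card_piFinset, prod_const, card_univ, Fintype.card_fin]
  exact Nat.pow_le_pow_left (sd_card n) R

open Classical in
/-- The tuples of value zero. -/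
lemma zero_count [∀ i, Nonempty (ι i)] :
    (((univ : Finset (∀ i, (Fin p → ι i) × (Fin p → ι i))).filter fun q => eq' p v q = 0).card : ℝ) ≤
      (∏ i, (Fintype.card (ι i) : ℝ)) ^ (2 * p) * ∑ i, (E p (v i) : ℝ) / (Fintype.card (ι i) : ℝ) ^ (2 * p) := by
  have hW : ∀ i, (Fintype.card ((Fin p → ι i) × (Fin p → ι i)) : ℝ) = (Fintype.card (ι i) : ℝ) ^ (2 * p) := by
    intro i
    rw [Fintype.card_prod, Fintype.card_fun, Fintype.card_fin]
    push_cast
    ring
  have h1 : ((univ : Finset (∀ i, (Fin p → ι i) × (Fin p → ι i))).filter fun q => eq' p v q = 0) ⊆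
      (univ : Finset (Fin R)).biUnion fun i => (univ : Finset (∀ i, (Fin p → ι i) × (Fin p → ι i))).filter
        fun q => q i ∈ (univ : Finset ((Fin p → ι i) × (Fin p → ι i))).filter fun q => df (v i) q = 0 := by
    intro q hq
    rw [mem_filter] at hq
    obtain ⟨i, _, hi⟩ := prod_eq_zero_iff.1 hq.2
    rw [mem_biUnion]
    exact ⟨i, mem_univ _, mem_filter.2 ⟨mem_univ _, mem_filter.2 ⟨mem_univ _, hi⟩⟩⟩
  have h2 : (((univ : Finset (∀ i, (Fin p → ι i) × (Fin p → ι i))).filter fun q => eq' p v q = 0).card : ℝ) ≤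
      ∑ i, (((univ : Finset (∀ i, (Fin p → ι i) × (Fin p → ι i))).filter
        fun q => q i ∈ (univ : Finset ((Fin p → ι i) × (Fin p → ι i))).filter fun q => df (v i) q = 0).card : ℝ) := by
    exact_mod_cast (card_le_card h1).trans card_biUnion_le
  refine h2.trans ?_
  rw [mul_sum]
  apply sum_le_sum
  intro i _
  have h3 := count_coord (fun i => (Fin p → ι i) × (Fin p → ι i)) i
    ((univ : Finset ((Fin p → ι i) × (Fin p → ι i))).filter fun q => df (v i) q = 0)
  have h4 : ((((univ : Finset (∀ i, (Fin p → ι i) × (Fin p → ι i))).filter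
        fun q => q i ∈ (univ : Finset ((Fin p → ι i) × (Fin p → ι i))).filter fun q => df (v i) q = 0).card : ℝ)) *
        (Fintype.card (ι i) : ℝ) ^ (2 * p) = E p (v i) * (∏ i, (Fintype.card (ι i) : ℝ)) ^ (2 * p) := by
    rw [← hW, ← prod_pow]
    have h5 : ∏ i, (Fintype.card (ι i) : ℝ) ^ (2 * p) = ((∏ j, Fintype.card ((Fin p → ι j) × (Fin p → ι j)) : ℕ) : ℝ) := by
      push_cast
      apply prod_congr rfl
      intro j _
      have := hW j
      push_cast at this
      exact this.symm
    rw [h5]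
    have h6 : (E p (v i) : ℝ) = ((((univ : Finset ((Fin p → ι i) × (Fin p → ι i))).filter fun q => df (v i) q = 0).card : ℕ) : ℝ) := by
      unfold E
      congr 2
    rw [h6]
    exact_mod_cast h3
  have hpos : (0 : ℝ) < (Fintype.card (ι i) : ℝ) ^ (2 * p) := by
    have : 0 < Fintype.card (ι i) := Fintype.card_pos
    positivity
  rw [← mul_div_assoc, le_div_iff₀ hpos, h4]
  exact le_of_eq (by ring)

/-- sums over symmetric intervals -/
lemma sum_sym (X : ℕ) (f : ℕ → ℝ) (hf : ∀ n, 0 ≤ f n) :
    ∑ n ∈ (Icc (-(X : ℤ)) X).filter (fun n => n ≠ 0), f n.natAbs ≤ 2 * ∑ m ∈ Icc 1 X, f m := by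
  classical
  have h0 : (Icc (-(X : ℤ)) X).filter (fun n => n ≠ 0) ⊆ (Icc 1 X).image (fun m : ℕ => (m : ℤ)) ∪ (Icc 1 X).image (fun m : ℕ => -(m : ℤ)) := by
    intro l hl
    rw [mem_filter, mem_Icc] at hl
    rw [mem_union, mem_image, mem_image]
    rcases lt_or_gt_of_ne hl.2 with h | h
    · right
      exact ⟨l.natAbs, mem_Icc.2 ⟨by omega, by omega⟩, by omega⟩
    · left
      exact ⟨l.natAbs, mem_Icc.2 ⟨by omega, by omega⟩, by omega⟩
  refine (sum_le_sum_of_subset_of_nonneg h0 (fun _ _ _ => hf _)).trans ?_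
  have h1 : ∑ l ∈ (Icc 1 X).image (fun m : ℕ => (m : ℤ)) ∪ (Icc 1 X).image (fun m : ℕ => -(m : ℤ)), f l.natAbs ≤
      ∑ l ∈ (Icc 1 X).image (fun m : ℕ => (m : ℤ)), f l.natAbs + ∑ l ∈ (Icc 1 X).image (fun m : ℕ => -(m : ℤ)), f l.natAbs := by
    rw [← sum_union_inter]
    have : 0 ≤ ∑ l ∈ (Icc 1 X).image (fun m : ℕ => (m : ℤ)) ∩ (Icc 1 X).image (fun m : ℕ => -(m : ℤ)), f l.natAbs :=
      sum_nonneg fun _ _ => hf _
    linarith
  refine h1.trans (le_of_eq ?_)
  rw [sum_image (by intro a _ b _ h; exact Int.ofNat.inj h), sum_image (by intro a _ b _ h; simpa using h)]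
  simp only [Int.natAbs_natCast, Int.natAbs_neg]
  ring

/-- moments of the divisor function -/
lemma tau_moment (m X : ℕ) : ∑ n ∈ Icc 1 X, (n.divisors.card : ℝ) ^ m ≤ X * (1 + Real.log X) ^ (2 ^ m) := by
  have h1 := Pool.Agent.TH212.EH.tau_pow_div m X
  calc ∑ n ∈ Icc 1 X, (n.divisors.card : ℝ) ^ m ≤ ∑ n ∈ Icc 1 X, X * ((n.divisors.card : ℝ) ^ m / n) := by
        apply sum_le_sum
        intro n hn
        rw [mem_Icc] at hn
        have hn0 : (0 : ℝ) < n := by exact_mod_cast hn.1
        have hnX : (n : ℝ) ≤ X := by exact_mod_cast hn.2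
        rw [mul_div_assoc', le_div_iff₀ hn0, mul_comm]
        exact mul_le_mul_of_nonneg_right hnX (by positivity)
    _ = X * ∑ n ∈ Icc 1 X, (n.divisors.card : ℝ) ^ m / n := by rw [mul_sum]
    _ ≤ _ := mul_le_mul_of_nonneg_left h1 (Nat.cast_nonneg _)

end Pool.Agent.K9h80.EP
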