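import Pool.Agent.K9h80.EP.Bx2

/-!
# The additive energy of the values of multilinear expressions with arbitrary lower order functions
-/

set_option autoImplicit false

namespace Pool.Agent.K9h80.EP

open Finset

section

variable {Q : ℕ} [NeZero Q]
variable {R : ℕ} {ι : Fin R → Type} [∀ i, Fintype (ι i)] (p : ℕ) (v : ∀ i, ι i → ℤ)

open Classical in
/-- the part of the box sum with non-zero values -/
noncomputable def Y1 (κ : ℤ) (t : ZMod Q) : ℂ :=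
  ∑ q ∈ (univ : Finset (∀ i, (Fin p → ι i) × (Fin p → ι i))).filter (fun q => eq' p v q ≠ 0), ps (t * ((κ * eq' p v q : ℤ) : ZMod Q))

lemma card_W : ((univ : Finset (∀ i, (Fin p → ι i) × (Fin p → ι i))).card : ℝ) = (∏ i, (Fintype.card (ι i) : ℝ)) ^ (2 * p) := by
  rw [card_univ, Fintype.card_pi, ← prod_pow]
  push_cast
  apply prod_congr rfl
  intro i _
  rw [Fintype.card_prod, Fintype.card_fun, Fintype.card_fin]
  push_cast
  ring

lemma Y1_le (κ : ℤ) (t : ZMod Q) : ‖Y1 p v κ t‖ ≤ (∏ i, (Fintype.card (ι i) : ℝ)) ^ (2 * p) := by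
  classical
  rw [← card_W p]
  unfold Y1
  refine (norm_sum_le _ _).trans ?_
  simp only [ps_norm, sum_const, nsmul_eq_mul, mul_one]
  exact_mod_cast card_filter_le _ _

open Classical in
lemma BC_split (κ : ℤ) (t : ZMod Q) : ‖BC p v (t * (κ : ZMod Q))‖ ≤
    ((univ : Finset (∀ i, (Fin p → ι i) × (Fin p → ι i))).filter fun q => eq' p v q = 0).card + ‖Y1 p v κ t‖ := by
  have h1 : BC p v (t * (κ : ZMod Q)) = ∑ q : ∀ i, (Fin p → ι i) × (Fin p → ι i), ps (t * ((κ * eq' p v q : ℤ) : ZMod Q)) := by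
    unfold BC eq'
    apply sum_congr rfl
    intro q _
    congr 1
    push_cast
    ring
  rw [h1, ← sum_filter_add_sum_filter_not univ (fun q => eq' p v q = 0)]
  refine (norm_add_le _ _).trans (add_le_add ?_ (le_of_eq rfl))
  refine (norm_sum_le _ _).trans ?_
  simp only [ps_norm, sum_const, nsmul_eq_mul, mul_one]
  exact le_rfl

lemma eq'_le (L : Fin R → ℕ) (hv : ∀ i a, |v i a| ≤ L i) (q : ∀ i, (Fin p → ι i) × (Fin p → ι i)) :
    |eq' p v q| ≤ (∏ i, (2 * p * L i) : ℕ) := by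
  unfold eq'
  rw [abs_prod]
  push_cast
  apply prod_le_prod (fun _ _ => abs_nonneg _)
  intro i _
  have h1 : ∀ x : Fin p → ι i, |∑ j, v i (x j)| ≤ p * L i := by
    intro x
    refine (abs_sum_le_sum_abs _ _).trans ((sum_le_sum fun j _ => hv i (x j)).trans (le_of_eq ?_))
    rw [sum_const, card_univ, Fintype.card_fin, nsmul_eq_mul]
  unfold df
  refine (abs_sub _ _).trans ?_
  have h2 := h1 (q i).1
  have h3 := h1 (q i).2
  linarith

/-- The mean square. -/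
lemma Y1_mean (κ : ℤ) (hκ : κ ≠ 0) (L : Fin R → ℕ) (hv : ∀ i a, |v i a| ≤ L i) (X : ℕ) (hX : X = ∏ i, (2 * p * L i))
    (hQ : 2 * (κ.natAbs * X) < Q) :
    ∑ t : ZMod Q, ‖Y1 p v κ t‖ ^ 2 ≤ Q * ((∏ i, (E p (v i) : ℝ)) ^ 2 * (4 ^ R * (2 * (X * (1 + Real.log X) ^ (2 ^ (2 * R)))))) := by
  classical
  have hev : ∀ q : ∀ i, (Fin p → ι i) × (Fin p → ι i), |eq' p v q| ≤ X := by
    intro q
    rw [hX]
    exact eq'_le p v L hv q
  obtain ⟨I, hI⟩ : ∃ I, I = (univ : Finset (∀ i, (Fin p → ι i) × (Fin p → ι i))).filter (fun q => eq' p v q ≠ 0) := ⟨_, rfl⟩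
  have h1 : ∀ t : ZMod Q, ((‖Y1 p v κ t‖ ^ 2 : ℝ) : ℂ) = ∑ x ∈ I, ∑ y ∈ I, ps (t * ((κ * eq' p v y - κ * eq' p v x : ℤ) : ZMod Q)) := by
    intro t
    rw [Complex.ofReal_pow, ← Complex.mul_conj']
    unfold Y1
    rw [← hI, map_sum, sum_mul_sum, sum_comm]
    apply sum_congr rfl
    intro x _
    apply sum_congr rfl
    intro y _
    rw [← ps_neg, ← ps_add]
    congr 1
    push_cast
    ring
  have h2 : ((∑ t : ZMod Q, ‖Y1 p v κ t‖ ^ 2 : ℝ) : ℂ) =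
      ((Q * ∑ x ∈ I, (I.filter fun y => ((κ * eq' p v y - κ * eq' p v x : ℤ) : ZMod Q) = 0).card : ℕ) : ℂ) := by
    rw [Complex.ofReal_sum]
    simp only [h1]
    rw [sum_comm]
    have h3 : ∀ x ∈ I, ∑ t : ZMod Q, ∑ y ∈ I, ps (t * ((κ * eq' p v y - κ * eq' p v x : ℤ) : ZMod Q)) =
        ((Q * (I.filter fun y => ((κ * eq' p v y - κ * eq' p v x : ℤ) : ZMod Q) = 0).card : ℕ) : ℂ) :=
      fun x _ => parseval I (fun y => κ * eq' p v y) (κ * eq' p v x)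
    rw [sum_congr rfl h3, ← Nat.cast_sum, mul_sum]
  have h4 : ∀ x ∈ I, (I.filter fun y => ((κ * eq' p v y - κ * eq' p v x : ℤ) : ZMod Q) = 0) = I.filter fun y => eq' p v y = eq' p v x := by
    intro x _
    apply filter_congr
    intro y _
    rw [cast_eq_zero_iff (Q := Q), ← mul_sub, mul_eq_zero, sub_eq_zero]
    · constructor
      · rintro (h | h)
        · exact absurd h hκ
        · exact h
      · intro h
        exact Or.inr h
    have h5 : (2 * ((κ.natAbs : ℤ) * X)) < Q := by exact_mod_cast hQ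
    have h6 : |κ| = κ.natAbs := Int.abs_eq_natAbs κ
    rw [← mul_sub, abs_mul, h6]
    have h7 : |eq' p v y - eq' p v x| ≤ 2 * X := by
      refine (abs_sub _ _).trans ?_
      have := hev x
      have := hev y
      linarith
    calc (κ.natAbs : ℤ) * |eq' p v y - eq' p v x| ≤ (κ.natAbs : ℤ) * (2 * X) := mul_le_mul_of_nonneg_left h7 (by positivity)
      _ < Q := by linarith
  have h5 : ∑ x ∈ I, (I.filter fun y => ((κ * eq' p v y - κ * eq' p v x : ℤ) : ZMod Q) = 0).card = ∑ x ∈ I, (I.filter fun y => eq' p v y = eq' p v x).card :=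
    sum_congr rfl fun x hx => by rw [h4 x hx]
  rw [h5] at h2
  have h6 : (∑ t : ZMod Q, ‖Y1 p v κ t‖ ^ 2 : ℝ) = ((Q * ∑ x ∈ I, (I.filter fun y => eq' p v y = eq' p v x).card : ℕ) : ℝ) := by
    exact_mod_cast h2
  rw [h6]
  push_cast
  apply mul_le_mul_of_nonneg_left _ (Nat.cast_nonneg _)
  -- the sum over the values
  obtain ⟨A, hA⟩ : ∃ A : ℝ, A = ∏ i, (E p (v i) : ℝ) := ⟨_, rfl⟩
  have hA0 : 0 ≤ A := by rw [hA]; positivity
  have hc : ∀ n : ℤ, n ≠ 0 → ((I.filter fun y => eq' p v y = n).card : ℝ) ≤ A * (2 * (n.natAbs.divisors.card : ℝ)) ^ R := by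
    intro n hn
    have g1 : (I.filter fun y => eq' p v y = n).card ≤ ((univ : Finset (∀ i, (Fin p → ι i) × (Fin p → ι i))).filter fun q => eq' p v q = n).card := by
      apply card_le_card
      intro y hy
      rw [mem_filter] at hy
      exact mem_filter.2 ⟨mem_univ _, hy.2⟩
    have g2 := g1.trans (value_count p v n hn)
    have g3 : ((I.filter fun y => eq' p v y = n).card : ℝ) ≤ (((∏ i, E p (v i)) * (2 * n.natAbs.divisors.card) ^ R : ℕ) : ℝ) := by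
      exact_mod_cast g2
    rw [hA]
    push_cast at g3
    exact g3
  obtain ⟨T, hT⟩ : ∃ T, T = (Icc (-(X : ℤ)) X).filter (fun n => n ≠ 0) := ⟨_, rfl⟩
  have h7 : ∑ x ∈ I, ((I.filter fun y => eq' p v y = eq' p v x).card : ℝ) =
      ∑ n ∈ T, ((I.filter fun y => eq' p v y = n).card : ℝ) * ((I.filter fun y => eq' p v y = n).card : ℝ) := by
    rw [← sum_fiberwise_of_maps_to (s := I) (t := T) (g := eq' p v) (fun q hq => by
      rw [hT, mem_filter, mem_Icc]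
      rw [hI, mem_filter] at hq
      exact ⟨abs_le.1 (hev q), hq.2⟩)]
    apply sum_congr rfl
    intro n _
    rw [← nsmul_eq_mul, ← sum_const]
    apply sum_congr rfl
    intro x hx
    rw [(mem_filter.1 hx).2]
  rw [h7]
  have h8 : ∀ n ∈ T, ((I.filter fun y => eq' p v y = n).card : ℝ) * ((I.filter fun y => eq' p v y = n).card : ℝ) ≤
      (A ^ 2 * 4 ^ R) * (n.natAbs.divisors.card : ℝ) ^ (2 * R) := by
    intro n hn
    rw [hT, mem_filter] at hn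
    have g1 := hc n hn.2
    calc _ ≤ (A * (2 * (n.natAbs.divisors.card : ℝ)) ^ R) * (A * (2 * (n.natAbs.divisors.card : ℝ)) ^ R) :=
          mul_le_mul g1 g1 (Nat.cast_nonneg _) (by positivity)
      _ = _ := by
        rw [mul_pow, two_mul R, pow_add]
        have : (4 : ℝ) ^ R = 2 ^ R * 2 ^ R := by rw [← mul_pow]; norm_num
        rw [this]
        ring
  refine (sum_le_sum h8).trans ?_
  rw [← mul_sum, hT]
  have h9 := sum_sym X (fun m => (m.divisors.card : ℝ) ^ (2 * R)) (fun _ => by positivity)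
  have h10 := tau_moment (2 * R) X
  calc A ^ 2 * 4 ^ R * ∑ n ∈ (Icc (-(X : ℤ)) X).filter (fun n => n ≠ 0), (n.natAbs.divisors.card : ℝ) ^ (2 * R) ≤
      A ^ 2 * 4 ^ R * (2 * (X * (1 + Real.log X) ^ (2 ^ (2 * R)))) := by
        apply mul_le_mul_of_nonneg_left _ (by positivity)
        linarith
    _ = _ := by rw [hA]; ring

end

/-- The values of the multilinear expression with lower order functions. -/
def ml {r : ℕ} {ι : Fin (r + 1) → Type} (κ : ℤ) (v : ∀ i, ι i → ℤ) (f : Fin (r + 1) → (∀ i, ι i) → ℤ) (x : ∀ i, ι i) : ℤ :=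
  κ * ∏ i, v i (x i) + ∑ i, f i x

open Classical in
/-- **The energy of the values.** -/
theorem ml_energy (p : ℕ) (hp : 1 ≤ p) (r k : ℕ) (hk : 2 ≤ k) (ι : Fin (r + 1) → Type) [∀ i, Fintype (ι i)] [∀ i, Nonempty (ι i)]
    (v : ∀ i, ι i → ℤ) (κ : ℤ) (hκ : κ ≠ 0) (f : Fin (r + 1) → (∀ i, ι i) → ℤ) (hf : ∀ i x a, f i (Function.update x i a) = f i x)
    (L : Fin (r + 1) → ℕ) (hv : ∀ i a, |v i a| ≤ L i) (X : ℕ) (hX : X = ∏ i, (2 * p * L i)) (n : ℝ) (hn : n = ∏ i, (Fintype.card (ι i) : ℝ)) :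
    (E (p * (2 * p) ^ r * k) (ml κ v f) : ℝ) ≤ (n ^ ((2 * p) ^ (r + 1) - 2 * p)) ^ k * (2 ^ (k - 1) *
      ((n ^ (2 * p) * ∑ i, (E p (v i) : ℝ) / (Fintype.card (ι i) : ℝ) ^ (2 * p)) ^ k + (n ^ (2 * p)) ^ (k - 2) *
        ((∏ i, (E p (v i) : ℝ)) ^ 2 * (4 ^ (r + 1) * (2 * (X * (1 + Real.log X) ^ (2 ^ (2 * (r + 1))))))))) := by
  obtain ⟨P, hP⟩ : ∃ P, P = p * (2 * p) ^ r * k := ⟨_, rfl⟩
  rw [← hP]
  obtain ⟨Q, hQ0, hQ1, hQ2⟩ : ∃ Q : ℕ, 0 < Q ∧ (∀ q : (Fin P → ∀ i, ι i) × (Fin P → ∀ i, ι i), |df (ml κ v f) q| < Q) ∧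
      2 * (κ.natAbs * X) < Q := by
    obtain ⟨M, hM⟩ := (Set.finite_range fun q : (Fin P → ∀ i, ι i) × (Fin P → ∀ i, ι i) => |df (ml κ v f) q|).bddAbove
    refine ⟨M.toNat + 2 * (κ.natAbs * X) + 1, by omega, fun q => ?_, by omega⟩
    have h1 : |df (ml κ v f) q| ≤ M := hM ⟨q, rfl⟩
    have h2 : (0 : ℤ) ≤ 2 * ((κ.natAbs : ℤ) * X) := by positivity
    have h3 : M ≤ M.toNat := Int.self_le_toNat M
    push_cast
    push_cast at h2
    linarith
  haveI : NeZero Q := ⟨hQ0.ne'⟩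
  have hQr : (0 : ℝ) < Q := by exact_mod_cast hQ0
  have hn0 : 0 ≤ n := by rw [hn]; positivity
  obtain ⟨Z0, hZ0⟩ : ∃ Z0 : ℝ, Z0 = n ^ (2 * p) * ∑ i, (E p (v i) : ℝ) / (Fintype.card (ι i) : ℝ) ^ (2 * p) := ⟨_, rfl⟩
  have hZ00 : 0 ≤ Z0 := by rw [hZ0]; positivity
  obtain ⟨MS, hMS⟩ : ∃ MS : ℝ, MS = (∏ i, (E p (v i) : ℝ)) ^ 2 * (4 ^ (r + 1) * (2 * (X * (1 + Real.log X) ^ (2 ^ (2 * (r + 1)))))) := ⟨_, rfl⟩
  obtain ⟨W, hW⟩ : ∃ W : ℝ, W = n ^ (2 * p) := ⟨_, rfl⟩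
  have hW0 : 0 ≤ W := by rw [hW]; positivity
  rw [← hZ0, ← hMS, ← hW]
  have hms := Y1_mean (Q := Q) p v κ hκ L hv X hX hQ2
  rw [← hMS] at hms
  have hpt : ∀ t : ZMod Q, ‖S (ml κ v f) t‖ ^ (2 * P) ≤
      (n ^ ((2 * p) ^ (r + 1) - 2 * p)) ^ k * (2 ^ (k - 1) * (Z0 ^ k + W ^ (k - 2) * ‖Y1 p v κ t‖ ^ 2)) := by
    intro t
    have e1 : S (ml κ v f) t = ML v (fun i x => ps (t * (f i x : ZMod Q))) (t * (κ : ZMod Q)) := by
      unfold S ML ml
      apply sum_congr rfl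
      intro x _
      rw [← ps_sum, ← ps_add]
      congr 1
      push_cast
      rw [mul_add, mul_sum]
      ring
    have h1 := box p hp r ι v (t * (κ : ZMod Q)) (fun i x => ps (t * (f i x : ZMod Q))) (fun i x => le_of_eq (ps_norm _))
      (fun i x a => by simp only [hf])
    rw [← e1, ← hn] at h1
    have h2 : ‖S (ml κ v f) t‖ ^ (2 * P) = (‖S (ml κ v f) t‖ ^ ((2 * p) ^ (r + 1))) ^ k := by
      rw [← pow_mul, hP]
      congr 1
      ring
    rw [h2]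
    refine (pow_le_pow_left₀ (by positivity) h1 k).trans ?_
    rw [mul_pow]
    apply mul_le_mul_of_nonneg_left _ (by positivity)
    have h3 : ‖BC p v (t * (κ : ZMod Q))‖ ≤ Z0 + ‖Y1 p v κ t‖ := by
      refine (BC_split p v κ t).trans ?_
      have := zero_count p v
      rw [← hn, ← hZ0] at this
      linarith
    refine (pow_le_pow_left₀ (norm_nonneg _) h3 k).trans ?_
    refine (add_pow_le hZ00 (norm_nonneg _) k).trans ?_
    apply mul_le_mul_of_nonneg_left _ (by positivity)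
    have h5 : ‖Y1 p v κ t‖ ^ k ≤ W ^ (k - 2) * ‖Y1 p v κ t‖ ^ 2 := by
      have h6 : ‖Y1 p v κ t‖ ≤ W := by
        rw [hW, hn]
        exact Y1_le p v κ t
      calc ‖Y1 p v κ t‖ ^ k = ‖Y1 p v κ t‖ ^ (k - 2) * ‖Y1 p v κ t‖ ^ 2 := by rw [← pow_add]; congr 1; omega
        _ ≤ _ := mul_le_mul_of_nonneg_right (pow_le_pow_left₀ (norm_nonneg _) h6 _) (by positivity)
    linarith
  refine le_of_mul_le_mul_left ?_ hQr
  rw [energy_eq _ (ml κ v f) hQ1]
  refine (sum_le_sum fun t _ => hpt t).trans ?_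
  rw [← mul_sum, ← mul_sum, sum_add_distrib, ← mul_sum, sum_const, card_univ, ZMod.card, nsmul_eq_mul]
  have h7 : (Q : ℝ) * Z0 ^ k + W ^ (k - 2) * ∑ t : ZMod Q, ‖Y1 p v κ t‖ ^ 2 ≤ Q * (Z0 ^ k + W ^ (k - 2) * MS) := by
    have h8 := mul_le_mul_of_nonneg_left hms (pow_nonneg hW0 (k - 2))
    nlinarith
  calc (n ^ ((2 * p) ^ (r + 1) - 2 * p)) ^ k * (2 ^ (k - 1) * (Q * Z0 ^ k + W ^ (k - 2) * ∑ t : ZMod Q, ‖Y1 p v κ t‖ ^ 2)) ≤
      (n ^ ((2 * p) ^ (r + 1) - 2 * p)) ^ k * (2 ^ (k - 1) * (Q * (Z0 ^ k + W ^ (k - 2) * MS))) := by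
        apply mul_le_mul_of_nonneg_left _ (by positivity)
        exact mul_le_mul_of_nonneg_left h7 (by positivity)
    _ = _ := by ring

end Pool.Agent.K9h80.EP
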