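import Pool.Agent.K9h80.EP.Bx3

/-!
# Multilinear expressions with arbitrary lower order functions have values of nearly minimal additive energy
-/

set_option autoImplicit false

namespace Pool.Agent.K9h80.EP

open Finset

/-- Families of integers in `[-L, L]` of nearly minimal energy. -/
def Good (N C p : ℕ) {ι : Type} [Fintype ι] (v : ι → ℤ) (L : ℕ) : Prop :=
  (∀ i, |v i| ≤ L) ∧ (E p v : ℝ) * L ≤ Real.log N ^ C * (Fintype.card ι : ℝ) ^ (2 * p)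

lemma large (K : ℝ) (X0 : ℕ) : ∃ N0 : ℕ, ∀ N : ℕ, N0 ≤ N → X0 ≤ N ∧ K ≤ Real.log N ∧ 1 ≤ Real.log N := by
  have h1 : Filter.Tendsto (fun N : ℕ => Real.log N) Filter.atTop Filter.atTop :=
    Real.tendsto_log_atTop.comp tendsto_natCast_atTop_atTop
  have h2 := (h1.eventually_ge_atTop K).and ((h1.eventually_ge_atTop 1).and (Filter.eventually_ge_atTop X0))
  obtain ⟨N0, h3⟩ := Filter.eventually_atTop.1 h2
  exact ⟨N0, fun N hN => ⟨(h3 N hN).2.2, (h3 N hN).1, (h3 N hN).2.1⟩⟩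

/-- **Multilinear expressions in families of nearly minimal energy.** -/
theorem ml_good (B : ℕ) (ε : ℝ) (hε : 0 < ε) (p C : ℕ) (hp : 1 ≤ p) (r : ℕ) :
    ∃ P C' N0 : ℕ, ∀ N : ℕ, N0 ≤ N →
    ∀ (ι : Fin (r + 1) → Type) [∀ i, Fintype (ι i)] [∀ i, Nonempty (ι i)] (v : ∀ i, ι i → ℤ) (κ : ℤ)
      (f : Fin (r + 1) → (∀ i, ι i) → ℤ) (L : Fin (r + 1) → ℕ), κ ≠ 0 → (∀ i x a, f i (Function.update x i a) = f i x) →
    (∀ i, (N : ℝ) ^ ε ≤ L i) → ∏ i, L i ≤ B * N → (∀ i, Good N C p (v i) (L i)) →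
    (E P (ml κ v f) : ℝ) * (∏ i, L i : ℕ) ≤ Real.log N ^ C' * (Fintype.card (∀ i, ι i) : ℝ) ^ (2 * P) := by
  obtain ⟨k, hk2, hkε⟩ : ∃ k : ℕ, 2 ≤ k ∧ 1 ≤ ε * k := by
    refine ⟨max 2 ⌈1 / ε⌉₊, le_max_left _ _, ?_⟩
    have h1 : 1 / ε ≤ ((max 2 ⌈1 / ε⌉₊ : ℕ) : ℝ) := (Nat.le_ceil _).trans (by exact_mod_cast le_max_right _ _)
    rw [div_le_iff₀ hε] at h1
    linarith
  obtain ⟨R, hR⟩ : ∃ R, R = r + 1 := ⟨_, rfl⟩
  obtain ⟨J, hJ⟩ : ∃ J, J = 2 ^ (2 * R) := ⟨_, rfl⟩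
  obtain ⟨c0, hc0⟩ : ∃ c0 : ℝ, c0 = 2 ^ (k - 1) * ((R : ℝ) ^ k * B + 2 * (8 * p) ^ R * 2 ^ J) := ⟨_, rfl⟩
  have hlB : 0 ≤ Real.log (((2 * p) ^ R * (B + 1) : ℕ) : ℝ) := Real.log_natCast_nonneg _
  have hc00 : 0 ≤ c0 := by rw [hc0]; positivity
  obtain ⟨N0, hN0⟩ := large (c0 + (1 + Real.log (((2 * p) ^ R * (B + 1) : ℕ) : ℝ))) 1
  refine ⟨p * (2 * p) ^ r * k, C * k + 2 * (C * R) + J + 1, N0, fun N hN ι _ _ v κ f L hκ hf hL hLB hg => ?_⟩
  obtain ⟨hN1', hlog, hlog1⟩ := hN0 N hN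
  have hN1 : (1 : ℝ) ≤ N := by exact_mod_cast hN1'
  have hN0' : (0 : ℝ) < N := by linarith
  have hNε : 1 ≤ (N : ℝ) ^ ε := Real.one_le_rpow hN1 hε.le
  have hL1 : ∀ i, 1 ≤ L i := fun i => by exact_mod_cast hNε.trans (hL i)
  have hel := ml_energy p hp r k hk2 ι v κ hκ f hf L (fun i a => (hg i).1 a) (∏ i, (2 * p * L i)) rfl _ rfl
  obtain ⟨n, hn⟩ : ∃ n : ℝ, n = ∏ i, (Fintype.card (ι i) : ℝ) := ⟨_, rfl⟩
  have hn0 : 0 ≤ n := by rw [hn]; positivity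
  obtain ⟨lam, hlam⟩ : ∃ lam : ℝ, lam = Real.log N := ⟨_, rfl⟩
  obtain ⟨W, hW⟩ : ∃ W : ℝ, W = n ^ (2 * p) := ⟨_, rfl⟩
  have hW0 : 0 ≤ W := by rw [hW]; positivity
  obtain ⟨Lam, hLam⟩ : ∃ Lam : ℝ, Lam = ((∏ i, L i : ℕ) : ℝ) := ⟨_, rfl⟩
  have hLam0 : 0 ≤ Lam := by rw [hLam]; positivity
  have hLamB : Lam ≤ B * N := by rw [hLam]; exact_mod_cast hLB
  obtain ⟨EE, hEE⟩ : ∃ EE : ℝ, EE = ∏ i, (E p (v i) : ℝ) := ⟨_, rfl⟩
  have hEE0 : 0 ≤ EE := by rw [hEE]; positivity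
  have hlam1 : 1 ≤ lam := by rw [hlam]; exact hlog1
  have hlam0 : 0 ≤ lam := by linarith
  have hcard : (Fintype.card (∀ i, ι i) : ℝ) = n := by
    rw [Fintype.card_pi, hn]
    push_cast
    rfl
  have hpos : ∀ i, (0 : ℝ) < (Fintype.card (ι i) : ℝ) ^ (2 * p) := by
    intro i
    have : 0 < Fintype.card (ι i) := Fintype.card_pos
    positivity
  -- (a)
  have ha : W * ∑ i, (E p (v i) : ℝ) / (Fintype.card (ι i) : ℝ) ^ (2 * p) ≤ W * (R * lam ^ C / (N : ℝ) ^ ε) := by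
    apply mul_le_mul_of_nonneg_left _ hW0
    calc ∑ i, (E p (v i) : ℝ) / (Fintype.card (ι i) : ℝ) ^ (2 * p) ≤ ∑ _i : Fin (r + 1), lam ^ C / (N : ℝ) ^ ε := by
          apply sum_le_sum
          intro i _
          have h1 := (hg i).2
          rw [← hlam] at h1
          have h2 : (0 : ℝ) < (N : ℝ) ^ ε := by linarith
          rw [div_le_div_iff₀ (hpos i) h2]
          calc (E p (v i) : ℝ) * (N : ℝ) ^ ε ≤ E p (v i) * L i := mul_le_mul_of_nonneg_left (hL i) (Nat.cast_nonneg _)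
            _ ≤ _ := h1
      _ = _ := by
          rw [sum_const, card_univ, Fintype.card_fin, nsmul_eq_mul, hR]
          ring
  -- (b)
  have hb : EE * Lam ≤ (lam ^ C) ^ R * W := by
    have h1 : EE * Lam = ∏ i, ((E p (v i) : ℝ) * L i) := by
      rw [prod_mul_distrib, hEE, hLam]
      push_cast
      rfl
    have h2 : ∏ i, ((E p (v i) : ℝ) * L i) ≤ ∏ i, (lam ^ C * (Fintype.card (ι i) : ℝ) ^ (2 * p)) := by
      apply prod_le_prod
      · intro i _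
        positivity
      · intro i _
        have h1 := (hg i).2
        rwa [← hlam] at h1
    rw [h1]
    refine h2.trans (le_of_eq ?_)
    rw [prod_mul_distrib, prod_const, card_univ, Fintype.card_fin, prod_pow, ← hn, hW, hR]
  -- (c)
  have hXe : ((∏ i, (2 * p * L i) : ℕ) : ℝ) = (2 * p : ℝ) ^ R * Lam := by
    rw [hLam, hR]
    push_cast
    rw [prod_mul_distrib, prod_const, card_univ, Fintype.card_fin]
  have hX1 : 1 ≤ ∏ i, (2 * p * L i) := Nat.one_le_iff_ne_zero.2 (prod_ne_zero_iff.2 fun i _ => by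
    have := hL1 i
    positivity)
  have hlogX0 : 0 ≤ Real.log ((∏ i, (2 * p * L i) : ℕ) : ℝ) := Real.log_natCast_nonneg _
  have hlogX : 1 + Real.log ((∏ i, (2 * p * L i) : ℕ) : ℝ) ≤ 2 * lam := by
    have h1 : Real.log ((∏ i, (2 * p * L i) : ℕ) : ℝ) ≤ Real.log ((((2 * p) ^ R * (B + 1) : ℕ) : ℝ) * (N : ℝ)) := by
      apply Real.log_le_log (by exact_mod_cast hX1)
      rw [hXe]
      push_cast
      calc (2 * (p : ℝ)) ^ R * Lam ≤ (2 * (p : ℝ)) ^ R * (B * N) := mul_le_mul_of_nonneg_left hLamB (by positivity)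
        _ ≤ (2 * (p : ℝ)) ^ R * ((B + 1) * N) := by
            apply mul_le_mul_of_nonneg_left _ (by positivity)
            nlinarith
        _ = _ := by ring
    have hpp : (0 : ℝ) < (((2 * p) ^ R * (B + 1) : ℕ) : ℝ) := by
      have : 0 < (2 * p) ^ R * (B + 1) := by positivity
      exact_mod_cast this
    rw [Real.log_mul hpp.ne' hN0'.ne', ← hlam] at h1
    rw [← hlam] at hlog
    linarith
  obtain ⟨lX, hlX⟩ : ∃ lX : ℝ, lX = Real.log ((∏ i, (2 * p * L i) : ℕ) : ℝ) := ⟨_, rfl⟩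
  rw [← hlX] at hlogX0 hlogX hel
  rw [← hn, ← hW, hXe, ← hEE] at hel
  obtain ⟨Z, hZ⟩ : ∃ Z : ℝ, Z = W * ∑ i, (E p (v i) : ℝ) / (Fintype.card (ι i) : ℝ) ^ (2 * p) := ⟨_, rfl⟩
  have hZ0 : 0 ≤ Z := by rw [hZ]; positivity
  rw [← hZ] at ha hel
  have hel' : (E (p * (2 * p) ^ r * k) (ml κ v f) : ℝ) ≤ (n ^ ((2 * p) ^ R - 2 * p)) ^ k *
      (2 ^ (k - 1) * (Z ^ k + W ^ (k - 2) * (EE ^ 2 * (4 ^ R * (2 * ((2 * p : ℝ) ^ R * Lam * (1 + lX) ^ J)))))) := by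
    refine hel.trans (le_of_eq ?_)
    rw [hJ]
    simp only [hR]
  have t1 : Z ^ k * Lam ≤ W ^ k * ((R : ℝ) ^ k * B * lam ^ (C * k)) := by
    have h1 : ((N : ℝ) ^ ε) ^ k = (N : ℝ) ^ (ε * k) := by rw [Real.rpow_mul (by linarith), Real.rpow_natCast]
    have h2 : (N : ℝ) ≤ ((N : ℝ) ^ ε) ^ k := by
      rw [h1]
      calc (N : ℝ) = (N : ℝ) ^ (1 : ℝ) := (Real.rpow_one _).symm
        _ ≤ _ := Real.rpow_le_rpow_of_exponent_le hN1 hkε
    have h3 : (0 : ℝ) < ((N : ℝ) ^ ε) ^ k := by positivity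
    calc Z ^ k * Lam ≤ (W * (R * lam ^ C / (N : ℝ) ^ ε)) ^ k * (B * N) := mul_le_mul (pow_le_pow_left₀ hZ0 ha k) hLamB hLam0 (by positivity)
      _ = W ^ k * ((R : ℝ) ^ k * B * lam ^ (C * k)) * (N / ((N : ℝ) ^ ε) ^ k) := by
          rw [mul_pow, div_pow, mul_pow, ← pow_mul]
          ring
      _ ≤ W ^ k * ((R : ℝ) ^ k * B * lam ^ (C * k)) * 1 := by
          apply mul_le_mul_of_nonneg_left _ (by positivity)
          rw [div_le_one h3]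
          exact h2
      _ = _ := mul_one _
  have t2 : W ^ (k - 2) * (EE ^ 2 * (4 ^ R * (2 * ((2 * p : ℝ) ^ R * Lam * (1 + lX) ^ J)))) * Lam ≤
      W ^ k * (2 * (8 * p) ^ R * 2 ^ J * lam ^ (2 * (C * R) + J)) := by
    have h1 : (1 + lX) ^ J ≤ (2 * lam) ^ J := pow_le_pow_left₀ (by linarith) hlogX J
    have h2 : (EE * Lam) ^ 2 ≤ ((lam ^ C) ^ R * W) ^ 2 := pow_le_pow_left₀ (by positivity) hb 2
    have e1 : (8 * p : ℝ) ^ R = 4 ^ R * (2 * p) ^ R := by rw [← mul_pow]; congr 1; ring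
    calc W ^ (k - 2) * (EE ^ 2 * (4 ^ R * (2 * ((2 * p : ℝ) ^ R * Lam * (1 + lX) ^ J)))) * Lam =
        W ^ (k - 2) * ((EE * Lam) ^ 2 * (2 * (8 * p) ^ R * (1 + lX) ^ J)) := by rw [e1]; ring
      _ ≤ W ^ (k - 2) * (((lam ^ C) ^ R * W) ^ 2 * (2 * (8 * p) ^ R * (2 * lam) ^ J)) := by
          apply mul_le_mul_of_nonneg_left _ (by positivity)
          apply mul_le_mul h2 _ (by positivity) (by positivity)
          exact mul_le_mul_of_nonneg_left h1 (by positivity)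
      _ = (W ^ (k - 2) * W ^ 2) * (2 * (8 * p) ^ R * 2 ^ J * lam ^ (2 * (C * R) + J)) := by
          rw [mul_pow, mul_pow, ← pow_mul, ← pow_mul, pow_add]
          ring
      _ = _ := by rw [← pow_add]; congr 2; omega
  have hlamc : c0 ≤ lam := by
    rw [← hlam] at hlog
    linarith
  have hp1 : lam ^ (C * k) ≤ lam ^ (C * k + 2 * (C * R) + J) := pow_le_pow_right₀ hlam1 (by omega)
  have hp2 : lam ^ (2 * (C * R) + J) ≤ lam ^ (C * k + 2 * (C * R) + J) := pow_le_pow_right₀ hlam1 (by omega)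
  rw [hcard]
  rw [← hLam, ← hlam]
  calc (E (p * (2 * p) ^ r * k) (ml κ v f) : ℝ) * Lam ≤
      ((n ^ ((2 * p) ^ R - 2 * p)) ^ k * (2 ^ (k - 1) * (Z ^ k + W ^ (k - 2) * (EE ^ 2 * (4 ^ R * (2 * ((2 * p : ℝ) ^ R * Lam * (1 + lX) ^ J))))))) * Lam :=
        mul_le_mul_of_nonneg_right hel' hLam0
    _ = (n ^ ((2 * p) ^ R - 2 * p)) ^ k * (2 ^ (k - 1) * (Z ^ k * Lam + W ^ (k - 2) * (EE ^ 2 * (4 ^ R * (2 * ((2 * p : ℝ) ^ R * Lam * (1 + lX) ^ J)))) * Lam)) := by ring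
    _ ≤ (n ^ ((2 * p) ^ R - 2 * p)) ^ k * (2 ^ (k - 1) * (W ^ k * ((R : ℝ) ^ k * B * lam ^ (C * k + 2 * (C * R) + J)) +
        W ^ k * (2 * (8 * p) ^ R * 2 ^ J * lam ^ (C * k + 2 * (C * R) + J)))) := by
        apply mul_le_mul_of_nonneg_left _ (by positivity)
        apply mul_le_mul_of_nonneg_left _ (by positivity)
        apply add_le_add
        · refine t1.trans (mul_le_mul_of_nonneg_left ?_ (by positivity))
          exact mul_le_mul_of_nonneg_left hp1 (by positivity)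
        · refine t2.trans (mul_le_mul_of_nonneg_left ?_ (by positivity))
          exact mul_le_mul_of_nonneg_left hp2 (by positivity)
    _ = ((n ^ ((2 * p) ^ R - 2 * p)) ^ k * W ^ k) * (c0 * lam ^ (C * k + 2 * (C * R) + J)) := by rw [hc0]; ring
    _ ≤ ((n ^ ((2 * p) ^ R - 2 * p)) ^ k * W ^ k) * (lam * lam ^ (C * k + 2 * (C * R) + J)) := by
        apply mul_le_mul_of_nonneg_left _ (by positivity)
        exact mul_le_mul_of_nonneg_right hlamc (by positivity)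
    _ = _ := by
        have e1 : (n ^ ((2 * p) ^ R - 2 * p)) ^ k * W ^ k = n ^ (2 * (p * (2 * p) ^ r * k)) := by
          rw [hW, ← mul_pow, ← pow_add, ← pow_mul]
          congr 1
          have h1 : 2 * p ≤ (2 * p) ^ R := by rw [hR]; exact Nat.le_self_pow (by omega) _
          rw [Nat.sub_add_cancel h1, hR]
          ring
        rw [e1]
        ring

end Pool.Agent.K9h80.EP
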