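import Pool.Agent.K9h80.EP.Bx4
import Pool.Agent.TH212.EH.A6

/-!
# Values of polynomials at dense sets have nearly minimal additive energy
-/

set_option autoImplicit false

namespace Pool.Agent.K9h80.EP

open Finset Polynomial
open Pool.Agent.H373R2.T7 (energy cf abs_eval_le)

lemma raise (N C C' p p' : ℕ) (hN : 1 ≤ Real.log N) (hC : C ≤ C') (hp : p ≤ p') {ι : Type} [Fintype ι] (v : ι → ℤ) (L : ℕ)
    (h : Good N C p v L) : Good N C' p' v L := by
  obtain ⟨k, rfl⟩ : ∃ k, p' = p + k := ⟨p' - p, by omega⟩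
  refine ⟨h.1, ?_⟩
  have h1 := energy_mono p k v
  have h2 : Real.log N ^ C ≤ Real.log N ^ C' := pow_le_pow_right₀ hN hC
  calc (E (p + k) v : ℝ) * L ≤ ((Fintype.card ι : ℝ) ^ (2 * k) * E p v) * L := mul_le_mul_of_nonneg_right h1 (Nat.cast_nonneg _)
    _ = (Fintype.card ι : ℝ) ^ (2 * k) * (E p v * L) := by ring
    _ ≤ (Fintype.card ι : ℝ) ^ (2 * k) * (Real.log N ^ C * (Fintype.card ι : ℝ) ^ (2 * p)) := mul_le_mul_of_nonneg_left h.2 (by positivity)
    _ ≤ (Fintype.card ι : ℝ) ^ (2 * k) * (Real.log N ^ C' * (Fintype.card ι : ℝ) ^ (2 * p)) :=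
        mul_le_mul_of_nonneg_left (mul_le_mul_of_nonneg_right h2 (by positivity)) (by positivity)
    _ = _ := by ring

/-- dense sets of values of a polynomial -/
lemma good_poly (P : ℤ[X]) (hd : 1 ≤ P.natDegree) (C : ℕ) : ∃ p C1 N0 : ℕ, ∀ N : ℕ, N0 ≤ N → ∀ (X : ℕ) (M : Finset ℤ), 1 ≤ X →
    M ⊆ Icc 1 (X : ℤ) → (X : ℝ) ≤ Real.log N ^ C * M.card →
    Good N C1 p (fun a : {m // m ∈ M} => P.eval (a : ℤ)) ((cf P + 1) * X ^ P.natDegree) := by
  classical
  obtain ⟨p, c, hc, hE⟩ := Pool.Agent.TH212.EH.energy_poly' P hd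
  obtain ⟨N0, h0⟩ := large (c * (cf P + 1)) 1
  refine ⟨p, C * (2 * p) + 1, N0, fun N hN X M hX hM hXM => ⟨fun a => ?_, ?_⟩⟩
  · have h1 := mem_Icc.1 (hM a.2)
    obtain ⟨m, hm⟩ : ∃ m : ℕ, (a : ℤ) = m := ⟨(a : ℤ).toNat, by omega⟩
    show |P.eval (a : ℤ)| ≤ _
    rw [hm] at h1 ⊢
    have h2 := abs_eval_le P m (by omega)
    refine h2.trans ?_
    push_cast
    apply mul_le_mul (by omega) _ (by positivity) (by positivity)
    exact pow_le_pow_left₀ (by positivity) h1.2 _
  · obtain ⟨_, hlog, hlog1⟩ := h0 N hN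
    have h1 : E p (fun a : {m // m ∈ M} => P.eval (a : ℤ)) ≤ energy p X (fun m => P.eval (m : ℤ)) := by
      unfold E energy
      apply card_le_card_of_injOn (fun q => (fun j => ((q.1 j : {m // m ∈ M}) : ℤ).toNat, fun j => ((q.2 j : {m // m ∈ M}) : ℤ).toNat))
      · intro q hq
        rw [mem_coe, mem_filter] at hq ⊢
        rw [mem_product, Fintype.mem_piFinset, Fintype.mem_piFinset]
        have hcast : ∀ b : {m // m ∈ M}, (((b : ℤ).toNat : ℕ) : ℤ) = b := by
          intro b
          have := mem_Icc.1 (hM b.2)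
          omega
        refine ⟨⟨fun j => ?_, fun j => ?_⟩, ?_⟩
        · have := mem_Icc.1 (hM (q.1 j).2)
          simp only
          rw [mem_Icc]
          omega
        · have := mem_Icc.1 (hM (q.2 j).2)
          simp only
          rw [mem_Icc]
          omega
        · simp only [hcast]
          exact sub_eq_zero.1 hq.2
      · intro q _ q' _ h
        simp only [Prod.mk.injEq] at h
        have hinj : ∀ b b' : {m // m ∈ M}, (b : ℤ).toNat = (b' : ℤ).toNat → b = b' := by
          intro b b' hb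
          have h2 := mem_Icc.1 (hM b.2)
          have h3 := mem_Icc.1 (hM b'.2)
          apply Subtype.ext
          omega
        apply Prod.ext
        · funext j
          exact hinj _ _ (congrFun h.1 j)
        · funext j
          exact hinj _ _ (congrFun h.2 j)
    have h2 := hE X hX
    have hlam0 : 0 ≤ Real.log N := by linarith
    rw [Fintype.card_coe]
    push_cast
    calc (E p (fun a : {m // m ∈ M} => P.eval (a : ℤ)) : ℝ) * (((cf P : ℝ) + 1) * (X : ℝ) ^ P.natDegree) ≤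
        (energy p X (fun m => P.eval (m : ℤ)) : ℝ) * (((cf P : ℝ) + 1) * (X : ℝ) ^ P.natDegree) :=
          mul_le_mul_of_nonneg_right (by exact_mod_cast h1) (by positivity)
      _ = ((cf P : ℝ) + 1) * ((energy p X (fun m => P.eval (m : ℤ)) : ℝ) * (X : ℝ) ^ P.natDegree) := by ring
      _ ≤ ((cf P : ℝ) + 1) * (c * (X : ℝ) ^ (2 * p)) := mul_le_mul_of_nonneg_left h2 (by positivity)
      _ ≤ ((cf P : ℝ) + 1) * (c * (Real.log N ^ C * M.card) ^ (2 * p)) := by
          apply mul_le_mul_of_nonneg_left _ (by positivity)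
          apply mul_le_mul_of_nonneg_left _ hc.le
          exact pow_le_pow_left₀ (Nat.cast_nonneg _) hXM _
      _ = (c * ((cf P : ℝ) + 1)) * (Real.log N ^ (C * (2 * p)) * (M.card : ℝ) ^ (2 * p)) := by
          rw [mul_pow, ← pow_mul]
          ring
      _ ≤ Real.log N * (Real.log N ^ (C * (2 * p)) * (M.card : ℝ) ^ (2 * p)) := mul_le_mul_of_nonneg_right hlog (by positivity)
      _ = _ := by ring

end Pool.Agent.K9h80.EP
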