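import Mathlib

/-!
# The additive energy of the products of the members of two families of integers: characters
-/

set_option autoImplicit false

namespace Pool.Agent.K9h80.EP

open Finset

/-- The difference of the sums over the two halves of a tuple. -/
def df {ι : Type} {p : ℕ} (v : ι → ℤ) (q : (Fin p → ι) × (Fin p → ι)) : ℤ :=
  ∑ j, v (q.1 j) - ∑ j, v (q.2 j)

open Classical in
/-- The additive energy of order `p`. -/
noncomputable def E {ι : Type} [Fintype ι] (p : ℕ) (v : ι → ℤ) : ℕ :=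
  ((univ : Finset ((Fin p → ι) × (Fin p → ι))).filter fun q => df v q = 0).card

variable {Q : ℕ} [NeZero Q]

/-- The characters modulo `Q`. -/
noncomputable def ps (x : ZMod Q) : ℂ := ZMod.stdAddChar x

lemma ps_norm (x : ZMod Q) : ‖ps x‖ = 1 := by
  unfold ps
  exact AddChar.norm_apply _ _

lemma ps_add (x y : ZMod Q) : ps (x + y) = ps x * ps y := AddChar.map_add_eq_mul _ _ _

lemma ps_neg (x : ZMod Q) : ps (-x) = (starRingEnd ℂ) (ps x) := AddChar.map_neg_eq_conj _ _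

lemma ps_zero : ps (0 : ZMod Q) = 1 := AddChar.map_zero_eq_one _

lemma ps_sum {α : Type} (s : Finset α) (f : α → ZMod Q) : ps (∑ i ∈ s, f i) = ∏ i ∈ s, ps (f i) := by
  classical
  induction s using Finset.induction_on with
  | empty => simp [ps_zero]
  | insert a s ha ih => rw [sum_insert ha, prod_insert ha, ps_add, ih]

lemma ps_orth (b : ZMod Q) : ∑ t : ZMod Q, ps (t * b) = if b = 0 then (Q : ℂ) else 0 := by
  have h := AddChar.sum_mulShift (R := ZMod Q) (R' := ℂ) (ψ := ZMod.stdAddChar) b (ZMod.isPrimitive_stdAddChar Q)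
  unfold ps
  rw [h, ZMod.card]
  split_ifs <;> simp

/-- The exponential sum of a family. -/
noncomputable def S {ι : Type} [Fintype ι] (v : ι → ℤ) (t : ZMod Q) : ℂ := ∑ i, ps (t * (v i : ZMod Q))

lemma S_norm_le {ι : Type} [Fintype ι] (v : ι → ℤ) (t : ZMod Q) : ‖S v t‖ ≤ Fintype.card ι := by
  unfold S
  refine (norm_sum_le _ _).trans (le_of_eq ?_)
  simp [ps_norm]

lemma S_pow {ι : Type} [Fintype ι] (p : ℕ) (v : ι → ℤ) (t : ZMod Q) :
    ((‖S v t‖ ^ (2 * p) : ℝ) : ℂ) = ∑ q : (Fin p → ι) × (Fin p → ι), ps (t * (df v q : ZMod Q)) := by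
  have h1 : ((‖S v t‖ ^ (2 * p) : ℝ) : ℂ) = S v t ^ p * (starRingEnd ℂ) (S v t) ^ p := by
    rw [← mul_pow, Complex.mul_conj', ← pow_mul]
    push_cast
    rfl
  have h2 : S v t ^ p = ∑ x : Fin p → ι, ps (t * ((∑ j, v (x j) : ℤ) : ZMod Q)) := by
    unfold S
    rw [Fintype.sum_pow]
    apply sum_congr rfl
    intro x _
    rw [Int.cast_sum, mul_sum, ps_sum]
  have h3 : (starRingEnd ℂ) (S v t) ^ p = ∑ x : Fin p → ι, ps (-(t * ((∑ j, v (x j) : ℤ) : ZMod Q))) := by
    rw [← map_pow, h2, map_sum]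
    apply sum_congr rfl
    intro x _
    rw [ps_neg]
  rw [h1, h2, h3, sum_mul_sum, ← univ_product_univ, sum_product]
  apply sum_congr rfl
  intro x _
  apply sum_congr rfl
  intro y _
  rw [← ps_add]
  congr 1
  unfold df
  push_cast
  ring

open Classical in
/-- Parseval. -/
lemma parseval {α : Type} (s : Finset α) (e : α → ℤ) (h : ℤ) :
    ∑ t : ZMod Q, ∑ q ∈ s, ps (t * ((e q - h : ℤ) : ZMod Q)) =
      ((Q * (s.filter fun q => ((e q - h : ℤ) : ZMod Q) = 0).card : ℕ) : ℂ) := by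
  rw [sum_comm]
  simp only [ps_orth]
  rw [← sum_filter, sum_const, nsmul_eq_mul]
  push_cast
  ring

lemma cast_eq_zero_iff {x : ℤ} (h : |x| < Q) : ((x : ℤ) : ZMod Q) = 0 ↔ x = 0 := by
  rw [ZMod.intCast_zmod_eq_zero_iff_dvd]
  constructor
  · intro h1
    exact Int.eq_zero_of_abs_lt_dvd h1 h
  · rintro rfl
    exact dvd_zero _

lemma energy_eq {ι : Type} [Fintype ι] (p : ℕ) (v : ι → ℤ) (hQ : ∀ q : (Fin p → ι) × (Fin p → ι), |df v q| < Q) :
    (Q : ℝ) * E p v = ∑ t : ZMod Q, ‖S v t‖ ^ (2 * p) := by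
  classical
  have h1 := parseval (Q := Q) (univ : Finset ((Fin p → ι) × (Fin p → ι))) (df v) 0
  simp only [sub_zero] at h1
  have h2 : ((∑ t : ZMod Q, ‖S v t‖ ^ (2 * p) : ℝ) : ℂ) =
      ((Q * ((univ : Finset ((Fin p → ι) × (Fin p → ι))).filter fun q => ((df v q : ℤ) : ZMod Q) = 0).card : ℕ) : ℂ) := by
    rw [← h1, Complex.ofReal_sum]
    exact sum_congr rfl fun t _ => S_pow p v t
  have h3 : ((univ : Finset ((Fin p → ι) × (Fin p → ι))).filter fun q => ((df v q : ℤ) : ZMod Q) = 0) =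
      (univ.filter fun q => df v q = 0) := filter_congr fun q _ => cast_eq_zero_iff (hQ q)
  rw [h3] at h2
  have h4 : (∑ t : ZMod Q, ‖S v t‖ ^ (2 * p) : ℝ) = ((Q * (univ.filter fun q : (Fin p → ι) × (Fin p → ι) => df v q = 0).card : ℕ) : ℝ) := by
    exact_mod_cast h2
  rw [h4]
  push_cast
  rfl

/-- Every difference has at most as many representations as zero. -/
lemma rep_le {ι : Type} [Fintype ι] (p : ℕ) (v : ι → ℤ) (h : ℤ) [DecidableEq ℤ] :
    ((univ : Finset ((Fin p → ι) × (Fin p → ι))).filter fun q => df v q = h).card ≤ E p v := by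
  classical
  obtain ⟨Q, hQ0, hQ⟩ : ∃ Q : ℕ, 0 < Q ∧ ∀ q : (Fin p → ι) × (Fin p → ι), |df v q| < Q := by
    obtain ⟨M, hM⟩ := (Set.finite_range fun q : (Fin p → ι) × (Fin p → ι) => |df v q|).bddAbove
    refine ⟨M.toNat + 1, by omega, fun q => ?_⟩
    have h1 : |df v q| ≤ M := hM ⟨q, rfl⟩
    push_cast
    omega
  haveI : NeZero Q := ⟨hQ0.ne'⟩
  have h1 := parseval (Q := Q) (univ : Finset ((Fin p → ι) × (Fin p → ι))) (df v) h
  have h2 : ∀ t : ZMod Q, ∑ q : (Fin p → ι) × (Fin p → ι), ps (t * ((df v q - h : ℤ) : ZMod Q)) =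
      ps (-(t * (h : ZMod Q))) * ((‖S v t‖ ^ (2 * p) : ℝ) : ℂ) := by
    intro t
    rw [S_pow, mul_sum]
    apply sum_congr rfl
    intro q _
    rw [← ps_add]
    congr 1
    push_cast
    ring
  have h3 : ((Q * ((univ : Finset ((Fin p → ι) × (Fin p → ι))).filter fun q => ((df v q - h : ℤ) : ZMod Q) = 0).card : ℕ) : ℝ) ≤
      Q * E p v := by
    rw [energy_eq p v hQ]
    have h4 : ‖(((Q * ((univ : Finset ((Fin p → ι) × (Fin p → ι))).filter fun q => ((df v q - h : ℤ) : ZMod Q) = 0).card : ℕ) : ℂ))‖ ≤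
        ∑ t : ZMod Q, ‖S v t‖ ^ (2 * p) := by
      rw [← h1]
      refine (norm_sum_le _ _).trans (sum_le_sum fun t _ => ?_)
      rw [h2 t, norm_mul, ps_norm, one_mul, Complex.norm_real, Real.norm_of_nonneg (by positivity)]
    rwa [Complex.norm_natCast] at h4
  have h5 : ((univ : Finset ((Fin p → ι) × (Fin p → ι))).filter fun q => df v q = h).card ≤
      ((univ : Finset ((Fin p → ι) × (Fin p → ι))).filter fun q => ((df v q - h : ℤ) : ZMod Q) = 0).card := by
    apply card_le_card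
    intro q hq
    rw [mem_filter] at hq ⊢
    refine ⟨hq.1, ?_⟩
    rw [hq.2, sub_self, Int.cast_zero]
  have h6 : ((univ : Finset ((Fin p → ι) × (Fin p → ι))).filter fun q => ((df v q - h : ℤ) : ZMod Q) = 0).card ≤ E p v := by
    have hQr : (0 : ℝ) < Q := by exact_mod_cast hQ0
    push_cast at h3
    have := le_of_mul_le_mul_left h3 hQr
    exact_mod_cast this
  exact h5.trans h6

/-- The energy of a larger order. -/
lemma energy_succ {ι : Type} [Fintype ι] (p : ℕ) (v : ι → ℤ) : (E (p + 1) v : ℝ) ≤ (Fintype.card ι : ℝ) ^ 2 * E p v := by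
  classical
  obtain ⟨Q, hQ0, hQ, hQ'⟩ : ∃ Q : ℕ, 0 < Q ∧ (∀ q : (Fin p → ι) × (Fin p → ι), |df v q| < Q) ∧
      ∀ q : (Fin (p + 1) → ι) × (Fin (p + 1) → ι), |df v q| < Q := by
    obtain ⟨M, hM⟩ := (Set.finite_range fun q : (Fin p → ι) × (Fin p → ι) => |df v q|).bddAbove
    obtain ⟨M', hM'⟩ := (Set.finite_range fun q : (Fin (p + 1) → ι) × (Fin (p + 1) → ι) => |df v q|).bddAbove
    refine ⟨M.toNat + M'.toNat + 1, by omega, fun q => ?_, fun q => ?_⟩
    · have h1 : |df v q| ≤ M := hM ⟨q, rfl⟩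
      push_cast
      omega
    · have h1 : |df v q| ≤ M' := hM' ⟨q, rfl⟩
      push_cast
      omega
  haveI : NeZero Q := ⟨hQ0.ne'⟩
  have hQr : (0 : ℝ) < Q := by exact_mod_cast hQ0
  refine le_of_mul_le_mul_left ?_ hQr
  have e : (Q : ℝ) * ((Fintype.card ι : ℝ) ^ 2 * E p v) = (Fintype.card ι : ℝ) ^ 2 * (Q * E p v) := by ring
  rw [e, energy_eq (p + 1) v hQ', energy_eq p v hQ, mul_sum]
  apply sum_le_sum
  intro t _
  have h1 := S_norm_le v t
  have h2 : ‖S v t‖ ^ (2 * (p + 1)) = ‖S v t‖ ^ 2 * ‖S v t‖ ^ (2 * p) := by ring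
  rw [h2]
  exact mul_le_mul_of_nonneg_right (pow_le_pow_left₀ (norm_nonneg _) h1 2) (by positivity)

lemma energy_mono {ι : Type} [Fintype ι] (p k : ℕ) (v : ι → ℤ) :
    (E (p + k) v : ℝ) ≤ (Fintype.card ι : ℝ) ^ (2 * k) * E p v := by
  induction k with
  | zero => simp
  | succ k ih =>
    refine (energy_succ (p + k) v).trans ?_
    calc (Fintype.card ι : ℝ) ^ 2 * E (p + k) v ≤ (Fintype.card ι : ℝ) ^ 2 * ((Fintype.card ι : ℝ) ^ (2 * k) * E p v) :=
          mul_le_mul_of_nonneg_left ih (by positivity)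
      _ = _ := by ring

end Pool.Agent.K9h80.EP
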